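import Pool.Agent.Y211.PY.Surg

set_option autoImplicit false

/-!
Project Y211-PY: induction on the length of `dual (M ⊓ L) / (M ⊔ L)`.
-/

open scoped Matrix

universe u

namespace Pool.Agent.Y211.PY

section Gen

theorem exists_simple_elt {R T : Type u} [CommRing R] [AddCommGroup T] [Module R T]
    [Nontrivial T] [IsArtinian R T] :
    ∃ x : T, x ≠ 0 ∧ ∃ m : Ideal R, m.IsMaximal ∧ ∀ r ∈ m, r • x = 0 := by
  haveI : IsAtomic (Submodule R T) :=
    isAtomic_of_orderBot_wellFounded_lt (wellFounded_lt (α := Submodule R T))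
  obtain ⟨S, hS, -⟩ := (IsAtomic.eq_bot_or_exists_atom_le (⊤ : Submodule R T)).resolve_left
    (by simpa using (bot_lt_top (α := Submodule R T)).ne')
  rw [← isSimpleModule_iff_isAtom] at hS
  haveI := hS
  haveI : Nontrivial S := IsSimpleModule.nontrivial R S
  obtain ⟨x, hx⟩ := exists_ne (0 : S)
  refine ⟨x, fun h => hx (Subtype.ext h), LinearMap.ker (LinearMap.toSpanSingleton R S x),
    IsSimpleModule.ker_toSpanSingleton_isMaximal R hx, ?_⟩
  intro r hr
  have h1 : r • x = 0 := by simpa using hr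
  have h2 := congrArg (Subtype.val) h1
  simpa using h2

end Gen

section Core

variable {R F : Type u} [CommRing R] [Field F] [Algebra R F]

/-- there is an isometric embedding of `F ^ k` with integral orthonormal complement which makes
`M` integral -/
def Good {k : ℕ} (M : Submodule R (Fin k → F)) : Prop :=
  ∃ (N s : ℕ) (j : (Fin k → F) →ₗ[F] (Fin N → F)) (e : Fin s → Fin N → F), N = k + s ∧
    (∀ x y, j x ⬝ᵥ j y = x ⬝ᵥ y) ∧ (∀ x ∈ M, j x ∈ lat R F N) ∧ (∀ i, e i ∈ lat R F N) ∧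
    (∀ i i', e i ⬝ᵥ e i' = if i = i' then 1 else 0) ∧ (∀ x i, j x ⬝ᵥ e i = 0)

theorem good_of_le {k : ℕ} {M : Submodule R (Fin k → F)} (h : M ≤ lat R F k) : Good M :=
  ⟨k, 0, LinearMap.id, Fin.elim0, rfl, fun _ _ => rfl, fun x hx => h hx, fun i => i.elim0,
    fun i => i.elim0, fun _ i => i.elim0⟩

theorem exists_den [IsDomain R] [IsFractionRing R F] {k : ℕ} (x : Fin k → F) :
    ∃ b : R, b ≠ 0 ∧ b • x ∈ lat R F k := by
  obtain ⟨b, hb⟩ := IsLocalization.exist_integer_multiples_of_finite (nonZeroDivisors R) x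
  refine ⟨b, nonZeroDivisors.ne_zero b.2, fun i => ?_⟩
  obtain ⟨c, hc⟩ := hb i
  exact Algebra.mem_bot.2 ⟨c, hc⟩

theorem exists_den1 [IsDomain R] [IsFractionRing R F] (x : F) :
    ∃ b : R, b ≠ 0 ∧ b • x ∈ (⊥ : Subalgebra R F) := by
  obtain ⟨b, hb, h⟩ := exists_den (R := R) (fun _ : Fin 1 => x)
  exact ⟨b, hb, h 0⟩

theorem bdd_M1 [IsDomain R] [IsFractionRing R F] {k : ℕ} (z : Fin k → F) (hq : qa z ≠ 0)
    (M : Submodule R (Fin k → F)) (hB : Bdd M) : Bdd (M1 z M) := by
  obtain ⟨d, hd, hdM⟩ := hB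
  obtain ⟨b, hb, hba⟩ := exists_den (R := R) (av z)
  obtain ⟨c, hc, hcq⟩ := exists_den1 (R := R) (2 / qa z)
  refine ⟨d * b * b * c, mul_ne_zero (mul_ne_zero (mul_ne_zero hd hb) hb) hc, fun y hy => ?_⟩
  set w := tau z y with hw
  have hyw : y = w - (2 * (av z ⬝ᵥ w) / qa z) • av z := by
    rw [← tau_apply, hw, tau_tau z hq]
  have hwM : w ∈ Mp M := hy
  have hdw : d • w ∈ lat R F (k + 1) := by
    rw [mem_lat, Fin.forall_fin_succ]
    exact ⟨Subalgebra.smul_mem _ hwM.2 d, fun i => hdM _ hwM.1 i⟩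
  have h1 : (d * b * b * c) • y = (b * b * c) • (d • w) -
      (algebraMap R F 1 * ((c • (2 / qa z)) * ((b • av z) ⬝ᵥ (d • w)))) • (b • av z) := by
    have e1 : (b • av z) ⬝ᵥ (d • w) = algebraMap R F b * algebraMap R F d * (av z ⬝ᵥ w) := by
      rw [← algebraMap_smul F b, ← algebraMap_smul F d w, smul_dotProduct, dotProduct_smul,
        smul_eq_mul, smul_eq_mul, mul_assoc]
    conv_lhs => rw [hyw]
    rw [e1]
    ext i
    simp only [Pi.smul_apply, Pi.sub_apply, smul_eq_mul]
    simp only [Algebra.smul_def, map_mul, map_one]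
    ring
  rw [h1]
  refine (lat R F (k + 1)).sub_mem ((lat R F (k + 1)).smul_mem _ hdw) ?_
  intro i
  rw [Pi.smul_apply, smul_eq_mul]
  exact mul_mem (mul_mem (Subalgebra.algebraMap_mem _ _) (mul_mem hcq (dot_mem hba hdw))) (hba i)

theorem good_of_good_M1 {k : ℕ} (z : Fin k → F) (hq : qa z ≠ 0)
    (M : Submodule R (Fin k → F)) (h : Good (M1 z M)) : Good M := by
  obtain ⟨N, s, j, e, hN, hj, hjM, he, hee, hje⟩ := h
  -- the inclusion
  let ι : (Fin k → F) →ₗ[F] (Fin (k + 1) → F) :=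
    { toFun := fun x => Fin.cons 0 x
      map_add' := fun x y => by
        ext i; refine Fin.cases ?_ (fun i' => ?_) i <;> simp
      map_smul' := fun c x => by
        ext i; refine Fin.cases ?_ (fun i' => ?_) i <;> simp }
  have hι : ∀ x, ι x = (Fin.cons 0 x : Fin (k + 1) → F) := fun _ => rfl
  have hιd : ∀ x y, ι x ⬝ᵥ ι y = x ⬝ᵥ y := by
    intro x y
    rw [dot_succ, hι, hι, Fin.cons_zero, Fin.cons_zero, Fin.tail_cons, Fin.tail_cons]
    ring
  set e0 : Fin (k + 1) → F := Fin.cons 1 0 with he0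
  have h00 : e0 ⬝ᵥ e0 = 1 := by
    rw [dot_succ, he0, Fin.cons_zero, Fin.tail_cons, dotProduct_zero]; ring
  have hι0 : ∀ x, ι x ⬝ᵥ e0 = 0 := by
    intro x
    rw [dot_succ, he0, hι, Fin.cons_zero, Fin.cons_zero, Fin.tail_cons, Fin.tail_cons,
      dotProduct_zero]; ring
  refine ⟨N, s + 1, j ∘ₗ tau z ∘ₗ ι, Fin.cons (j (tau z e0)) e, by omega, ?_, ?_, ?_, ?_, ?_⟩
  · intro x y
    simp only [LinearMap.comp_apply]
    rw [hj, tau_dot z hq, hιd]
  · intro x hx
    simp only [LinearMap.comp_apply]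
    apply hjM
    exact tau_mem_M1 z hq (cons_mem_Mp.2 ⟨hx, zero_mem _⟩)
  · intro i
    refine Fin.cases ?_ (fun i' => ?_) i
    · rw [Fin.cons_zero]
      exact hjM _ (tau_mem_M1 z hq (cons_mem_Mp.2 ⟨M.zero_mem, one_mem _⟩))
    · rw [Fin.cons_succ]; exact he i'
  · intro i i'
    refine Fin.cases ?_ (fun a => ?_) i
    · refine Fin.cases ?_ (fun b => ?_) i'
      · rw [Fin.cons_zero, hj, tau_dot z hq, h00, if_pos rfl]
      · rw [Fin.cons_zero, Fin.cons_succ, hje, if_neg (Fin.succ_ne_zero b).symm]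
    · refine Fin.cases ?_ (fun b => ?_) i'
      · rw [Fin.cons_zero, Fin.cons_succ, dotProduct_comm, hje, if_neg (Fin.succ_ne_zero a)]
      · rw [Fin.cons_succ, Fin.cons_succ, hee]
        simp [Fin.succ_inj]
  · intro x i
    simp only [LinearMap.comp_apply]
    refine Fin.cases ?_ (fun a => ?_) i
    · rw [Fin.cons_zero, hj, tau_dot z hq, hι0]
    · rw [Fin.cons_succ, hje]

/-- the length drops -/
theorem length_lt (h2 : IsUnit (2 : R)) (hH : Hart R F) {k : ℕ} (z : Fin k → F) (hq : qa z ≠ 0)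
    (M : Submodule R (Fin k → F)) (hM : dual M = M) (hT : IsFiniteLength R (TM M))
    (hz : z ∈ dual (M ⊓ lat R F k)) (hz0 : z ∉ M ⊔ lat R F k) (m : Ideal R) (hm : m.IsMaximal)
    (hmz : ∀ j ∈ m, j • z ∈ M ⊔ lat R F k) :
    IsFiniteLength R (TM (M1 z M)) ∧ Module.length R (TM (M1 z M)) < Module.length R (TM M) := by
  obtain ⟨hN, hA⟩ := isFiniteLength_iff_isNoetherian_isArtinian.1 hT
  have h2F : (2 : F) ≠ 0 := two_ne h2
  set S : Submodule R (dual (M ⊓ lat R F k)) :=
    (M ⊔ lat R F k).submoduleOf (dual (M ⊓ lat R F k)) with hS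
  set zb : TM M := S.mkQ ⟨z, hz⟩ with hzb
  have hzb0 : zb ≠ 0 := by
    intro h
    rw [hzb, Submodule.mkQ_apply, Submodule.Quotient.mk_eq_zero] at h
    exact hz0 h
  set p : Submodule R (TM M) := Submodule.span R {zb} with hp
  have hpne : p ≠ ⊥ := by
    rw [hp]; simpa using hzb0
  set P1 := M1 z M ⊓ lat R F (k + 1) with hP1
  let ρR : (Fin (k + 1) → F) →ₗ[R] (Fin k → F) := (rho z).restrictScalars R
  let f0 : dual P1 →ₗ[R] dual (M ⊓ lat R F k) :=
    ρR.restrict (fun y hy => rho_dual z h2 M hz hy)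
  let f : dual P1 →ₗ[R] (TM M ⧸ p) := p.mkQ ∘ₗ S.mkQ ∘ₗ f0
  have hker : LinearMap.ker f ≤ (M1 z M ⊔ lat R F (k + 1)).submoduleOf (dual P1) := by
    intro y hy
    have hy1 : S.mkQ (f0 y) ∈ p := by
      have : p.mkQ (S.mkQ (f0 y)) = 0 := hy
      rwa [Submodule.mkQ_apply, Submodule.Quotient.mk_eq_zero] at this
    rw [hp, Submodule.mem_span_singleton] at hy1
    obtain ⟨r, hr⟩ := hy1
    have hr2 : f0 y - r • (⟨z, hz⟩ : dual (M ⊓ lat R F k)) ∈ S := by
      rw [← Submodule.Quotient.mk_eq_zero, Submodule.Quotient.mk_sub, Submodule.Quotient.mk_smul]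
      have : (Submodule.Quotient.mk (f0 y) : TM M) = S.mkQ (f0 y) := rfl
      rw [sub_eq_zero]
      exact hr.symm
    have hr3 : rho z y.1 - r • z ∈ M ⊔ lat R F k := hr2
    obtain ⟨μ, hμ, l, hl, hsum⟩ := Submodule.mem_sup.1 hr3
    have hM1 : tau z (Fin.cons 0 μ : Fin (k + 1) → F) ∈ M1 z M :=
      tau_mem_M1 z hq (cons_mem_Mp.2 ⟨hμ, zero_mem _⟩)
    have h22 : (2 : F) ∈ (⊥ : Subalgebra R F) := by
      have := Subalgebra.algebraMap_mem (⊥ : Subalgebra R F) (2 : R)
      rwa [map_ofNat] at this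
    have hL1 : (Fin.cons (r • (2 : F)) l : Fin (k + 1) → F) ∈ lat R F (k + 1) :=
      cons_mem_lat.2 ⟨hl, Subalgebra.smul_mem _ h22 r⟩
    set y' : Fin (k + 1) → F := y.1 - tau z (Fin.cons 0 μ : Fin (k + 1) → F)
      - (Fin.cons (r • (2 : F)) l : Fin (k + 1) → F) with hy'
    have hle1 : M1 z M ≤ dual P1 := by
      conv_lhs => rw [← dual_M1 z hq M hM]
      exact dual_anti inf_le_left
    have hle2 : lat R F (k + 1) ≤ dual P1 := by
      conv_lhs => rw [← dual_lat (R := R) (F := F) (k + 1)]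
      exact dual_anti inf_le_right
    have hy'd : y' ∈ dual P1 :=
      (dual P1).sub_mem ((dual P1).sub_mem y.2 (hle1 hM1)) (hle2 hL1)
    have hρ0 : rho z y' = 0 := by
      have e1 : rho z (Fin.cons 0 μ : Fin (k + 1) → F) = μ := by
        rw [rho_apply, Fin.cons_zero, Fin.tail_cons, zero_div, zero_smul, add_zero]
      have e2 : rho z (Fin.cons (r • (2 : F)) l : Fin (k + 1) → F) = l + r • z := by
        have h22' : (r • (2 : F)) / 2 = algebraMap R F r := by
          rw [Algebra.smul_def]; field_simp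
        rw [rho_apply, Fin.cons_zero, Fin.tail_cons, h22', algebraMap_smul]
      rw [hy', map_sub, map_sub, rho_tau z h2F, e1, e2, sub_sub, ← add_assoc, hsum]
      abel
    have hy'av := ker_rho z h2F hρ0
    have hmem : y' ∈ M1 z M ⊔ lat R F (k + 1) := by
      rw [hy'av] at hy'd ⊢
      exact av_mem z h2 hH hq M hM hz m hm hmz _ hy'd
    have : y.1 = y' + tau z (Fin.cons 0 μ : Fin (k + 1) → F)
      + (Fin.cons (r • (2 : F)) l : Fin (k + 1) → F) := by rw [hy']; abel
    change y.1 ∈ M1 z M ⊔ lat R F (k + 1)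
    rw [this]
    exact Submodule.add_mem _ (Submodule.add_mem _ hmem (Submodule.mem_sup_left hM1))
      (Submodule.mem_sup_right hL1)
  have hlen : Module.length R (TM (M1 z M)) ≤ Module.length R (TM M ⧸ p) := by
    have e1 : Module.length R (TM (M1 z M)) ≤ Module.length R ((dual P1) ⧸ LinearMap.ker f) :=
      Module.length_le_of_surjective (Submodule.factor hker) (Submodule.factor_surjective hker)
    have e2 : Module.length R ((dual P1) ⧸ LinearMap.ker f) = Module.length R (LinearMap.range f) :=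
      f.quotKerEquivRange.length_eq
    have e3 : Module.length R (LinearMap.range f) ≤ Module.length R (TM M ⧸ p) :=
      Module.length_le_of_injective (LinearMap.range f).subtype (Submodule.injective_subtype _)
    exact e1.trans (e2.le.trans e3)
  have hlt : Module.length R (TM M ⧸ p) < Module.length R (TM M) :=
    Submodule.length_quotient_lt p hpne
  refine ⟨?_, lt_of_le_of_lt hlen hlt⟩
  rw [← Module.length_ne_top_iff]
  exact (lt_of_le_of_lt hlen (hlt.trans_le le_top)).ne

/-- the main induction -/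
theorem good_of_finiteLength [IsDomain R] [IsFractionRing R F] (h2 : IsUnit (2 : R))
    (h3 : (3 : F) ≠ 0) (hH : Hart R F)
    (hT0 : ∀ (k : ℕ) (M : Submodule R (Fin k → F)), Bdd M → dual M = M →
      dual (M ⊓ lat R F k) ≤ M ⊔ lat R F k → M ≤ lat R F k) :
    ∀ (l : ℕ) (k : ℕ) (M : Submodule R (Fin k → F)), Bdd M → dual M = M →
      Module.length R (TM M) = l → Good M := by
  intro l
  induction l using Nat.strong_induction_on with
  | _ l ih =>
  intro k M hB hM hl
  have hfin : IsFiniteLength R (TM M) := by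
    rw [← Module.length_ne_top_iff, hl]; exact ENat.natCast_ne_top l
  obtain ⟨hN, hA⟩ := isFiniteLength_iff_isNoetherian_isArtinian.1 hfin
  have h2F : (2 : F) ≠ 0 := two_ne h2
  rcases subsingleton_or_nontrivial (TM M) with hs | hnt
  · -- trivial case
    apply good_of_le
    apply hT0 k M hB hM
    intro x hx
    have : (Submodule.Quotient.mk ⟨x, hx⟩ : TM M) = 0 := Subsingleton.elim _ _
    rw [Submodule.Quotient.mk_eq_zero] at this
    exact this
  · obtain ⟨x, hx0, m, hm, hmx⟩ := exists_simple_elt (R := R) (T := TM M)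
    obtain ⟨z, rfl⟩ := Submodule.Quotient.mk_surjective _ x
    have hz0 : z.1 ∉ M ⊔ lat R F k := by
      intro h
      apply hx0
      rw [Submodule.Quotient.mk_eq_zero]
      exact h
    have hmz : ∀ j ∈ m, j • z.1 ∈ M ⊔ lat R F k := by
      intro j hj
      have := hmx j hj
      rw [← Submodule.Quotient.mk_smul, Submodule.Quotient.mk_eq_zero] at this
      exact this
    -- choose a multiple with nonzero norm
    obtain ⟨w, hw, hw0, hmw, hqw⟩ : ∃ w : Fin k → F, w ∈ dual (M ⊓ lat R F k) ∧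
        w ∉ M ⊔ lat R F k ∧ (∀ j ∈ m, j • w ∈ M ⊔ lat R F k) ∧ qa w ≠ 0 := by
      by_cases hq : qa z.1 = 0
      · obtain ⟨c, hc⟩ := h2.exists_right_inv
        refine ⟨c • z.1, (dual (M ⊓ lat R F k)).smul_mem c z.2, ?_, ?_, ?_⟩
        · intro h
          apply hz0
          have := (M ⊔ lat R F k).smul_mem (2 : R) h
          rwa [smul_smul, hc, one_smul] at this
        · intro j hj
          rw [smul_comm]
          exact (M ⊔ lat R F k).smul_mem c (hmz j hj)
        · have hc' : (2 : F) * algebraMap R F c = 1 := by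
            have := congrArg (algebraMap R F) hc
            rwa [map_mul, map_ofNat, map_one] at this
          unfold qa at hq ⊢
          rw [← algebraMap_smul F c, smul_dotProduct, dotProduct_smul, smul_eq_mul, smul_eq_mul]
          have hzz : z.1 ⬝ᵥ z.1 = -4 := by linear_combination hq
          rw [hzz]
          have : algebraMap R F c * (algebraMap R F c * -4) + 4 = 3 := by
            linear_combination (-(1 : F)) * (2 * algebraMap R F c + 1) * hc'
          rw [this]
          exact h3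
      · exact ⟨z.1, z.2, hz0, hmz, hq⟩
    obtain ⟨hf1, hlt⟩ := length_lt h2 hH w hqw M hM hfin hw hw0 m hm hmw
    have hne : Module.length R (TM (M1 w M)) ≠ ⊤ := Module.length_ne_top_iff.2 hf1
    obtain ⟨l', hl'⟩ := ENat.ne_top_iff_exists.1 hne
    apply good_of_good_M1 w hqw M
    refine ih l' ?_ (k + 1) (M1 w M) (bdd_M1 w hqw M hB) (dual_M1 w hqw M hM) hl'.symm
    rw [← hl', hl] at hlt
    exact_mod_cast hlt

end Core

end Pool.Agent.Y211.PY
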