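import Pool.Agent.Y211.PY.Stm

set_option autoImplicit false

/-!
Project Y211-PY: a two-dimensional regular local domain.
-/

universe u

namespace Pool.Agent.Y211.PY

open IsLocalRing in
theorem t_LOC : S_LOC.{u} := by
  classical
  intro A _ _ _ hdim
  have hrank : (maximalIdeal A).spanFinrank = 2 := by
    have h1 := IsRegularLocalRing.spanFinrank_maximalIdeal (R := A)
    rw [hdim] at h1
    exact_mod_cast h1
  have hfg : (maximalIdeal A).FG := (inferInstance : IsNoetherianRing A).noetherian _
  obtain ⟨S, hScard, hS⟩ := Submodule.FG.exists_span_finset_card_eq_spanFinrank hfg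
  rw [hrank] at hScard
  obtain ⟨s, t, hst, rfl⟩ := Finset.card_eq_two.1 hScard
  have hmax : maximalIdeal A = Ideal.span {s, t} := by
    rw [← hS]; simp [Ideal.span]
  -- the height of the maximal ideal is two
  have hheight : (maximalIdeal A).height = 2 := by
    have h1 := IsLocalRing.maximalIdeal_height_eq_ringKrullDim (R := A)
    rw [hdim] at h1
    have h2 : ((maximalIdeal A).height : WithBot ℕ∞) = ((2 : ℕ∞) : WithBot ℕ∞) := h1
    exact WithBot.coe_injective h2
  -- no principal ideal equals the maximal ideal
  have hnp : ∀ x : A, maximalIdeal A ≠ Ideal.span {x} := by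
    intro x hx
    have h1 : (maximalIdeal A).height ≤ 1 :=
      Ideal.height_le_one_of_isPrincipal_of_mem_minimalPrimes (Ideal.span {x}) (maximalIdeal A)
        (by rw [← hx, Ideal.minimalPrimes_eq_subsingleton_self]; exact rfl)
    rw [hheight] at h1
    exact absurd h1 (by decide)
  have hs0 : s ≠ 0 := by
    rintro rfl
    apply hnp t
    rw [hmax]
    apply le_antisymm
    · rw [Ideal.span_le]
      rintro x (rfl | rfl)
      · exact Ideal.zero_mem _
      · exact Ideal.subset_span rfl
    · exact Ideal.span_mono (by simp)
  have ht : t ∉ Ideal.span {s} := by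
    intro h
    apply hnp s
    rw [hmax]
    apply le_antisymm
    · rw [Ideal.span_le]
      rintro x (rfl | rfl)
      · exact Ideal.subset_span rfl
      · exact h
    · exact Ideal.span_mono (by simp)
  have hsmem : s ∈ maximalIdeal A := by rw [hmax]; exact Ideal.subset_span (by simp)
  have htmem : t ∈ maximalIdeal A := by rw [hmax]; exact Ideal.subset_span (by simp)
  -- a minimal prime over (s)
  have hle : Ideal.span {s} ≤ maximalIdeal A := by
    rw [Ideal.span_le]; rintro x rfl; exact hsmem
  obtain ⟨p, hp, hpm⟩ := Ideal.exists_minimalPrimes_le hle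
  have hpprime : p.IsPrime := hp.1.1
  have hsp : Ideal.span {s} ≤ p := hp.1.2
  have hpne : p ≠ maximalIdeal A := by
    intro h
    have h1 : p.height ≤ 1 :=
      Ideal.height_le_one_of_isPrincipal_of_mem_minimalPrimes (Ideal.span {s}) p hp
    rw [h, hheight] at h1
    exact absurd h1 (by decide)
  have htp : t ∉ p := by
    intro h
    apply hpne
    apply le_antisymm hpm
    rw [hmax, Ideal.span_le]
    rintro x (rfl | rfl)
    · exact hsp (Ideal.subset_span rfl)
    · exact h
  -- p = (s)
  have hpeq : p = Ideal.span {s} := by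
    apply le_antisymm _ hsp
    have hpfg : p.FG := (inferInstance : IsNoetherianRing A).noetherian _
    apply Submodule.le_of_le_smul_of_le_jacobson_bot (I := maximalIdeal A) hpfg
    · rw [IsLocalRing.jacobson_eq_maximalIdeal ⊥ bot_ne_top]
    · intro x hx
      have hxm : x ∈ Ideal.span {s, t} := by rw [← hmax]; exact hpm hx
      obtain ⟨a, b, hab⟩ := Ideal.mem_span_pair.1 hxm
      have hbt : b * t ∈ p := by
        have : b * t = x - a * s := by rw [← hab]; ring
        rw [this]
        exact p.sub_mem hx (p.mul_mem_left _ (hsp (Ideal.subset_span rfl)))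
      have hb : b ∈ p := (hpprime.mem_or_mem hbt).resolve_right htp
      rw [← hab]
      refine Submodule.add_mem_sup ?_ ?_
      · exact Ideal.mul_mem_left _ _ (Ideal.subset_span rfl)
      · rw [mul_comm]
        exact Submodule.smul_mem_smul htmem hb
  exact ⟨s, t, hmax, hpeq ▸ hpprime, hs0, ht⟩

end Pool.Agent.Y211.PY
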