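import Pool.Agent.Y211.PY.Core
import Pool.Agent.Y211.PY.Loc
import Pool.Agent.Y79.PY.TR
import Pool.Agent.Y779.PY.T0L
import Pool.Agent.Y165.PY.T0
import Pool.Agent.Y350.PY.GP
import Pool.Agent.Y839.PY.P3
import Pool.Agent.Y936.PY.Init
import Pool.Agent.Y484.PY.OX

set_option autoImplicit false

/-!
Project Y211-PY: assembly.
-/

open scoped Matrix

universe u

namespace Pool.Agent.Y211.PY

/-- sums of `n` squares descend from the fraction field to a two-dimensional regular domain,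
up to an orthonormal complement -/
theorem lift_squares (hHART : S_HART.{u}) (hVAL : S_VAL.{u})
    (R F : Type u) [CommRing R] [IsDomain R] [IsNoetherianRing R] [Field F]
    [Algebra R F] [IsFractionRing R F] (hReg : Reg R) (hRl : Rl R) (h2 : IsUnit (2 : R))
    (h3 : (3 : F) ≠ 0) (n : ℕ) (v : Fin n → F) (f : R) (hf : v ⬝ᵥ v = algebraMap R F f) :
    ∃ (s : ℕ) (w : Fin (n + s) → R) (e : Fin s → Fin (n + s) → R),
      (∀ i j, e i ⬝ᵥ e j = if i = j then 1 else 0) ∧ (∀ i, w ⬝ᵥ e i = 0) ∧ w ⬝ᵥ w = f := by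
  have hH : Hart R F := hHART R F hReg
  have hV : Val R F := hVAL R F hReg
  obtain ⟨M, hB, hM, hvM, hfin⟩ := Pool.Agent.Y936.PY.t R F hH hV n v
    (by rw [hf]; exact Subalgebra.algebraMap_mem _ f)
  have hne : Module.length R (TM M) ≠ ⊤ := Module.length_ne_top_iff.2 hfin
  obtain ⟨l, hl⟩ := ENat.ne_top_iff_exists.1 hne
  have hgood : Good M := good_of_finiteLength h2 h3 hH
    (Pool.Agent.Y165.PY.T0.t (Pool.Agent.Y779.PY.t t_LOC) R F hReg hRl) l n M hB hM hl.symm
  obtain ⟨N, s, j, e, rfl, hj, hjM, he, hee, hje⟩ := hgood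
  have hinj : Function.Injective (algebraMap R F) := IsFractionRing.injective R F
  -- lift integral vectors
  have hlift : ∀ x ∈ lat R F (n + s), ∃ y : Fin (n + s) → R, ∀ i, algebraMap R F (y i) = x i :=
    fun x hx => ⟨fun i => (Algebra.mem_bot.1 (hx i)).choose,
      fun i => (Algebra.mem_bot.1 (hx i)).choose_spec⟩
  obtain ⟨w, hw⟩ := hlift _ (hjM v hvM)
  choose e' he' using fun i => hlift _ (he i)
  have hdot : ∀ (a b : Fin (n + s) → R) (a' b' : Fin (n + s) → F),
      (∀ i, algebraMap R F (a i) = a' i) → (∀ i, algebraMap R F (b i) = b' i) →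
      algebraMap R F (a ⬝ᵥ b) = a' ⬝ᵥ b' := by
    intro a b a' b' ha hb
    simp only [dotProduct, map_sum, map_mul, ha, hb]
  refine ⟨s, w, e', ?_, ?_, ?_⟩
  · intro i i'
    apply hinj
    rw [hdot _ _ _ _ (he' i) (he' i'), hee]
    split_ifs <;> simp
  · intro i
    apply hinj
    rw [hdot _ _ _ _ hw (he' i), hje, map_zero]
  · apply hinj
    rw [hdot _ _ _ _ hw hw, hj, hf]

/-- sums of `n ≥ 3` squares descend from the function field to the regular functions -/
theorem descend (hHART : S_HART.{u}) (hVAL : S_VAL.{u}) (K A : Type u) [Field K] [CommRing A]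
    [IsDomain A] [Algebra K A] [Algebra.FiniteType K A] (hK : ¬ IsSumSq (-1 : K))
    (hReg : RegPts K A) (hpt : Nonempty (A →ₐ[K] K))
    (htr : ∀ h : Fin 3 → FractionRing A, ¬ AlgebraicIndependent K h)
    (n : ℕ) (hn : 3 ≤ n) (f : RegFun K A) (v : Fin n → FractionRing (RegFun K A))
    (hv : algebraMap (RegFun K A) (FractionRing (RegFun K A)) f = ∑ i, v i ^ 2) :
    ∃ x : Fin n → RegFun K A, f = ∑ i, x i ^ 2 := by
  obtain ⟨hdom, hnoe, hR, hRl, hmax, ⟨eF⟩⟩ := Pool.Agent.Y484.PY.OX.t K A hK hReg hpt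
  have hchar : CharZero K := Pool.Agent.Y839.PY.charZero hK
  have h2 : IsUnit (2 : RegFun K A) := by
    have h := (isUnit_iff_ne_zero.2 (two_ne_zero : (2 : K) ≠ 0)).map (algebraMap K (RegFun K A))
    rwa [map_ofNat] at h
  have h3 : (3 : FractionRing (RegFun K A)) ≠ 0 := by
    have h := (isUnit_iff_ne_zero.2 (three_ne_zero : (3 : K) ≠ 0)).map
      (algebraMap K (FractionRing (RegFun K A)))
    rw [map_ofNat] at h
    exact h.ne_zero
  have htr' : ∀ h : Fin 3 → FractionRing (RegFun K A), ¬ AlgebraicIndependent K h := by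
    intro h hh
    exact htr (eF ∘ h) (hh.map' (f := eF.toAlgHom) eF.injective)
  obtain ⟨s, w, e, hee, hwe, hww⟩ := lift_squares hHART hVAL (RegFun K A)
    (FractionRing (RegFun K A)) hR hRl h2 h3 n v f
    (by rw [hv]; simp [dotProduct, pow_two])
  obtain ⟨x, hx⟩ := Pool.Agent.Y79.PY.tr Pool.Agent.Y350.PY.t K (RegFun K A)
    (FractionRing (RegFun K A)) hK htr' hmax n hn s w e hee hwe
  exact ⟨x, by rw [← hww, hx]⟩

end Pool.Agent.Y211.PY
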