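import Mathlib

set_option autoImplicit false

/-!
Project Y211-PY (owner helper211), MP_d2168f_ag: Pythagoras numbers of the ring of regular
functions of a nonsingular rational surface.  Definitions and statements of self-contained
sub-tasks.
-/

open scoped Matrix

universe u

namespace Pool.Agent.Y211.PY

section Defs

variable {R F : Type u} [CommRing R] [Field F] [Algebra R F]

/-- the standard lattice `R ^ k` inside `F ^ k` -/
def lat (R F : Type u) [CommRing R] [Field F] [Algebra R F] (k : ℕ) :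
    Submodule R (Fin k → F) where
  carrier := {x | ∀ i, x i ∈ (⊥ : Subalgebra R F)}
  add_mem' := fun hx hy i => add_mem (hx i) (hy i)
  zero_mem' := fun _ => zero_mem _
  smul_mem' := fun r _ hx i => Subalgebra.smul_mem _ (hx i) r

/-- the dual lattice `{x | x · y ∈ R for all y ∈ M}` with respect to the dot product -/
def dual {k : ℕ} (M : Submodule R (Fin k → F)) : Submodule R (Fin k → F) where
  carrier := {x | ∀ y ∈ M, x ⬝ᵥ y ∈ (⊥ : Subalgebra R F)}
  add_mem' := fun {a b} ha hb y hy => by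
    rw [add_dotProduct]; exact add_mem (ha y hy) (hb y hy)
  zero_mem' := fun y _ => by rw [zero_dotProduct]; exact zero_mem _
  smul_mem' := fun r x hx y hy => by
    rw [smul_dotProduct]; exact Subalgebra.smul_mem _ (hx y hy) r

/-- common denominator for a lattice -/
def Bdd {k : ℕ} (M : Submodule R (Fin k → F)) : Prop :=
  ∃ d : R, d ≠ 0 ∧ ∀ x ∈ M, d • x ∈ lat R F k

end Defs

/-- all local rings at maximal ideals are regular of dimension 2 -/
def Reg (R : Type u) [CommRing R] : Prop :=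
  ∀ (m : Ideal R) [m.IsMaximal], IsRegularLocalRing (Localization.AtPrime m) ∧
    ringKrullDim (Localization.AtPrime m) = 2

/-- the Hartogs property -/
def Hart (R F : Type u) [CommRing R] [Field F] [Algebra R F] : Prop :=
  ∀ m : Ideal R, m.IsMaximal → ∀ x : F, (∀ r ∈ m, r • x ∈ (⊥ : Subalgebra R F)) →
    x ∈ (⊥ : Subalgebra R F)

/-- the local rings at nonmaximal primes are valuation rings -/
def Val (R F : Type u) [CommRing R] [Field F] [Algebra R F] : Prop :=
  ∀ D : Ideal R, D.IsPrime → ¬ D.IsMaximal → ∀ x : F, ∃ s : R, s ∉ D ∧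
    (s • x ∈ (⊥ : Subalgebra R F) ∨ s • x⁻¹ ∈ (⊥ : Subalgebra R F))

/-- a sum of squares lies in a maximal ideal only if every term does -/
def Rl (R : Type u) [CommRing R] : Prop :=
  ∀ m : Ideal R, m.IsMaximal → ∀ (k : ℕ) (x : Fin k → R), ∑ i, x i ^ 2 ∈ m → ∀ i, x i ∈ m

/-- task LOC -/
def S_LOC : Prop := ∀ (A : Type u) [CommRing A] [IsDomain A] [IsRegularLocalRing A],
  ringKrullDim A = 2 → ∃ s t : A, IsLocalRing.maximalIdeal A = Ideal.span {s, t} ∧
    (Ideal.span {s}).IsPrime ∧ s ≠ 0 ∧ t ∉ Ideal.span {s}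

/-- task HART -/
def S_HART : Prop := ∀ (R F : Type u) [CommRing R] [IsDomain R] [IsNoetherianRing R] [Field F]
  [Algebra R F] [IsFractionRing R F], Reg R → Hart R F

/-- task VAL -/
def S_VAL : Prop := ∀ (R F : Type u) [CommRing R] [IsDomain R] [IsNoetherianRing R] [Field F]
  [Algebra R F] [IsFractionRing R F], Reg R → Val R F

/-- task T0L (local form) -/
def S_T0L : Prop := ∀ (A F : Type u) [CommRing A] [IsDomain A] [IsRegularLocalRing A] [Field F]
  [Algebra A F] [IsFractionRing A F], ringKrullDim A = 2 →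
  (∀ (k : ℕ) (x : Fin k → A), ∑ i, x i ^ 2 ∈ IsLocalRing.maximalIdeal A →
    ∀ i, x i ∈ IsLocalRing.maximalIdeal A) →
  ∀ (k : ℕ) (M : Submodule A (Fin k → F)), Bdd M → dual M = M →
    dual (M ⊓ lat A F k) ≤ M ⊔ lat A F k → M ≤ lat A F k

/-- task T0 (global form, from the local one) -/
def S_T0 : Prop := ∀ (R F : Type u) [CommRing R] [IsDomain R] [IsNoetherianRing R] [Field F]
  [Algebra R F] [IsFractionRing R F], Reg R → Rl R →
  ∀ (k : ℕ) (M : Submodule R (Fin k → F)), Bdd M → dual M = M →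
    dual (M ⊓ lat R F k) ≤ M ⊔ lat R F k → M ≤ lat R F k

/-- task GP (general position) -/
def S_GP : Prop := ∀ (K R F : Type u) [Field K] [CommRing R] [IsDomain R] [Field F] [Algebra K R]
  [Algebra R F] [IsFractionRing R F] [Algebra K F] [IsScalarTower K R F],
  (¬ IsSumSq (-1 : K)) → (∀ h : Fin 3 → F, ¬ AlgebraicIndependent K h) →
  ∀ (N : ℕ), 4 ≤ N → ∀ u : Fin N → R, u ⬝ᵥ u = 1 →
    ∃ c : Fin N → K, c ⬝ᵥ c = 1 ∧ ∀ φ : R →ₐ[K] K, (fun i => φ (u i)) ≠ c

/-- task TR (transitivity), from GP -/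
def S_TR : Prop := ∀ (K R F : Type u) [Field K] [CommRing R] [IsDomain R] [Field F] [Algebra K R]
  [Algebra R F] [IsFractionRing R F] [Algebra K F] [IsScalarTower K R F],
  (¬ IsSumSq (-1 : K)) → (∀ h : Fin 3 → F, ¬ AlgebraicIndependent K h) →
  (∀ m : Ideal R, m.IsMaximal → ∃ φ : R →ₐ[K] K, RingHom.ker φ = m) →
  ∀ (n : ℕ), 3 ≤ n → ∀ (s : ℕ) (w : Fin (n + s) → R) (e : Fin s → Fin (n + s) → R),
    (∀ i j, e i ⬝ᵥ e j = if i = j then 1 else 0) → (∀ i, w ⬝ᵥ e i = 0) →
    ∃ x : Fin n → R, w ⬝ᵥ w = ∑ i, x i ^ 2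

/-- task P3: the Pythagoras number of `K(x, y)` is at least `3` -/
def S_P3 : Prop := ∀ (K : Type u) [Field K], (¬ IsSumSq (-1 : K)) →
  ¬ ∃ a b : FractionRing (MvPolynomial (Fin 2) K),
    1 + algebraMap (MvPolynomial (Fin 2) K) (FractionRing (MvPolynomial (Fin 2) K))
        (MvPolynomial.X 0) ^ 2
      + algebraMap (MvPolynomial (Fin 2) K) (FractionRing (MvPolynomial (Fin 2) K))
        (MvPolynomial.X 1) ^ 2 = a ^ 2 + b ^ 2

/-- the denominators: elements without zero at the `K`-points -/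
def nonvan (K A : Type u) [Field K] [CommRing A] [Algebra K A] : Submonoid A where
  carrier := {g | ∀ φ : A →ₐ[K] K, φ g ≠ 0}
  one_mem' := fun φ => by simp
  mul_mem' := fun ha hb φ => by rw [map_mul]; exact mul_ne_zero (ha φ) (hb φ)

/-- the ring of regular functions `O(X)` of an affine `K`-variety with coordinate ring `A` -/
abbrev RegFun (K A : Type u) [Field K] [CommRing A] [Algebra K A] : Type u :=
  Localization (nonvan K A)

/-- the local ring at every `K`-point is regular of dimension 2 -/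
def RegPts (K A : Type u) [Field K] [CommRing A] [Algebra K A] : Prop :=
  ∀ (m : Ideal A) [m.IsPrime], (∃ φ : A →ₐ[K] K, RingHom.ker φ = m) →
    IsRegularLocalRing (Localization.AtPrime m) ∧ ringKrullDim (Localization.AtPrime m) = 2

/-- task OX: basic properties of the ring of regular functions -/
def S_OX : Prop := ∀ (K A : Type u) [Field K] [CommRing A] [IsDomain A] [Algebra K A]
  [Algebra.FiniteType K A], (¬ IsSumSq (-1 : K)) → RegPts K A → Nonempty (A →ₐ[K] K) →
  IsDomain (RegFun K A) ∧ IsNoetherianRing (RegFun K A) ∧ Reg (RegFun K A) ∧ Rl (RegFun K A) ∧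
  (∀ m : Ideal (RegFun K A), m.IsMaximal → ∃ φ : RegFun K A →ₐ[K] K, RingHom.ker φ = m) ∧
  Nonempty (FractionRing (RegFun K A) ≃ₐ[K] FractionRing A)

/-- task RAT: rational varieties have `K`-points, and no three algebraically independent
functions -/
def S_RAT : Prop := ∀ (K A : Type u) [Field K] [Infinite K] [CommRing A] [IsDomain A] [Algebra K A]
  [Algebra.FiniteType K A],
  Nonempty (FractionRing A ≃ₐ[K] FractionRing (MvPolynomial (Fin 2) K)) →
  Nonempty (A →ₐ[K] K)

/-- task TRD -/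
def S_TRD : Prop := ∀ (K : Type u) [Field K],
  ∀ h : Fin 3 → FractionRing (MvPolynomial (Fin 2) K), ¬ AlgebraicIndependent K h

/-- the torsion module `dual (M ⊓ L) / (M ⊔ L)` -/
abbrev TM {R F : Type u} [CommRing R] [Field F] [Algebra R F] {k : ℕ}
    (M : Submodule R (Fin k → F)) : Type u :=
  (dual (M ⊓ lat R F k)) ⧸ (M ⊔ lat R F k).submoduleOf (dual (M ⊓ lat R F k))

/-- task INIT: the initial self-dual lattice -/
def S_INIT : Prop := ∀ (R F : Type u) [CommRing R] [IsDomain R] [IsNoetherianRing R] [Field F]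
  [Algebra R F] [IsFractionRing R F], Hart R F → Val R F →
  ∀ (n : ℕ) (v : Fin n → F), v ⬝ᵥ v ∈ (⊥ : Subalgebra R F) →
    ∃ M : Submodule R (Fin n → F), Bdd M ∧ dual M = M ∧ v ∈ M ∧ IsFiniteLength R (TM M)

end Pool.Agent.Y211.PY
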