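import Pool.Agent.Y211.PY.Stm

set_option autoImplicit false

/-!
Project Y211-PY: the surgery step.
-/

open scoped Matrix

universe u

namespace Pool.Agent.Y211.PY

section Surg

variable {R F : Type u} [CommRing R] [Field F] [Algebra R F]

theorem mem_lat {k : ℕ} {x : Fin k → F} : x ∈ lat R F k ↔ ∀ i, x i ∈ (⊥ : Subalgebra R F) :=
  Iff.rfl

theorem mem_dual {k : ℕ} {M : Submodule R (Fin k → F)} {x : Fin k → F} :
    x ∈ dual M ↔ ∀ y ∈ M, x ⬝ᵥ y ∈ (⊥ : Subalgebra R F) := Iff.rfl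

theorem dot_mem {k : ℕ} {x y : Fin k → F} (hx : x ∈ lat R F k) (hy : y ∈ lat R F k) :
    x ⬝ᵥ y ∈ (⊥ : Subalgebra R F) :=
  sum_mem fun i _ => mul_mem (hx i) (hy i)

theorem dual_anti {k : ℕ} {M N : Submodule R (Fin k → F)} (h : M ≤ N) : dual N ≤ dual M :=
  fun _ hx y hy => hx y (h hy)

theorem dual_lat (k : ℕ) : dual (lat R F k) = lat R F k := by
  apply le_antisymm
  · intro x hx i
    have := hx (Pi.single i 1) (fun j => by
      by_cases h : j = i
      · subst h; simp [one_mem]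
      · simp [h, zero_mem])
    simpa using this
  · intro x hx y hy
    exact dot_mem hx hy

theorem smul_dot {k : ℕ} (r : R) (x y : Fin k → F) : (r • x) ⬝ᵥ y = r • (x ⬝ᵥ y) :=
  smul_dotProduct r x y

variable {k : ℕ} (z : Fin k → F)

/-- the reflection vector -/
def av : Fin (k + 1) → F := Fin.cons (-2) z

/-- its norm -/
def qa : F := z ⬝ᵥ z + 4

theorem dot_succ (x y : Fin (k + 1) → F) :
    x ⬝ᵥ y = x 0 * y 0 + Fin.tail x ⬝ᵥ Fin.tail y := by
  simp [dotProduct, Fin.sum_univ_succ, Fin.tail]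

@[simp] theorem av_zero : av z 0 = -2 := rfl

@[simp] theorem av_tail : Fin.tail (av z) = z := rfl

theorem av_dot_av : av z ⬝ᵥ av z = qa z := by
  rw [dot_succ, av_zero, av_tail, qa]; ring

/-- the reflection in `av z` -/
noncomputable def tau : (Fin (k + 1) → F) →ₗ[F] (Fin (k + 1) → F) where
  toFun y := y - (2 * (av z ⬝ᵥ y) / qa z) • av z
  map_add' x y := by
    simp only [dotProduct_add]
    rw [mul_add, add_div, add_smul]; abel
  map_smul' c y := by
    simp only [dotProduct_smul, RingHom.id_apply, smul_sub, smul_eq_mul, smul_smul]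
    congr 2; ring

theorem tau_apply (y : Fin (k + 1) → F) :
    tau z y = y - (2 * (av z ⬝ᵥ y) / qa z) • av z := rfl

theorem av_dot_tau (hq : qa z ≠ 0) (y : Fin (k + 1) → F) :
    av z ⬝ᵥ tau z y = - (av z ⬝ᵥ y) := by
  rw [tau_apply, dotProduct_sub, dotProduct_smul, av_dot_av, smul_eq_mul]
  field_simp
  ring

theorem tau_tau (hq : qa z ≠ 0) (y : Fin (k + 1) → F) : tau z (tau z y) = y := by
  rw [tau_apply z (tau z y), av_dot_tau z hq, tau_apply]
  rw [mul_neg, neg_div, neg_smul]; abel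

theorem tau_dot (hq : qa z ≠ 0) (x y : Fin (k + 1) → F) :
    tau z x ⬝ᵥ tau z y = x ⬝ᵥ y := by
  conv_lhs => rw [tau_apply z x, sub_dotProduct, smul_dotProduct, av_dot_tau z hq, tau_apply z y,
    dotProduct_sub, dotProduct_smul, dotProduct_comm x (av z)]
  simp only [smul_eq_mul]
  ring

theorem tau_dot' (hq : qa z ≠ 0) (x y : Fin (k + 1) → F) :
    tau z x ⬝ᵥ y = x ⬝ᵥ tau z y := by
  conv_lhs => rw [← tau_tau z hq y]
  exact tau_dot z hq x _

theorem tau_smulR (r : R) (y : Fin (k + 1) → F) : tau z (r • y) = r • tau z y := by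
  rw [← algebraMap_smul F r y, map_smul, algebraMap_smul]

/-- `M ⊕ R e` -/
def Mp (M : Submodule R (Fin k → F)) : Submodule R (Fin (k + 1) → F) where
  carrier := {y | Fin.tail y ∈ M ∧ y 0 ∈ (⊥ : Subalgebra R F)}
  add_mem' := fun ha hb => ⟨M.add_mem ha.1 hb.1, add_mem ha.2 hb.2⟩
  zero_mem' := ⟨M.zero_mem, zero_mem _⟩
  smul_mem' := fun r _ hx => ⟨M.smul_mem r hx.1, Subalgebra.smul_mem _ hx.2 r⟩

theorem mem_Mp {M : Submodule R (Fin k → F)} {y : Fin (k + 1) → F} :
    y ∈ Mp M ↔ Fin.tail y ∈ M ∧ y 0 ∈ (⊥ : Subalgebra R F) := Iff.rfl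

theorem cons_mem_Mp {M : Submodule R (Fin k → F)} {x : Fin k → F} {t : F} :
    (Fin.cons t x : Fin (k + 1) → F) ∈ Mp M ↔ x ∈ M ∧ t ∈ (⊥ : Subalgebra R F) := by
  rw [mem_Mp, Fin.tail_cons, Fin.cons_zero]

theorem cons_mem_lat {x : Fin k → F} {t : F} :
    (Fin.cons t x : Fin (k + 1) → F) ∈ lat R F (k + 1) ↔
      x ∈ lat R F k ∧ t ∈ (⊥ : Subalgebra R F) := by
  rw [mem_lat, Fin.forall_fin_succ]
  simp only [Fin.cons_zero, Fin.cons_succ]
  exact and_comm

theorem tail_mem_lat {y : Fin (k + 1) → F} (hy : y ∈ lat R F (k + 1)) :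
    Fin.tail y ∈ lat R F k := fun i => hy i.succ

theorem dual_Mp (M : Submodule R (Fin k → F)) (hM : dual M = M) : dual (Mp M) = Mp M := by
  apply le_antisymm
  · intro y hy
    refine ⟨?_, ?_⟩
    · rw [← hM]
      intro x hx
      have := hy (Fin.cons 0 x) (cons_mem_Mp.2 ⟨hx, zero_mem _⟩)
      rwa [dot_succ, Fin.cons_zero, Fin.tail_cons, mul_zero, zero_add] at this
    · have := hy (Fin.cons 1 0) (cons_mem_Mp.2 ⟨M.zero_mem, one_mem _⟩)
      rwa [dot_succ, Fin.cons_zero, Fin.tail_cons, mul_one, dotProduct_zero, add_zero] at this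
  · intro y hy w hw
    rw [dot_succ]
    refine add_mem (mul_mem hy.2 hw.2) ?_
    have := hy.1
    rw [← hM] at this
    exact this _ hw.1

/-- the new lattice -/
noncomputable def M1 (M : Submodule R (Fin k → F)) : Submodule R (Fin (k + 1) → F) where
  carrier := {y | tau z y ∈ Mp M}
  add_mem' := fun {a b} ha hb => by
    change tau z (a + b) ∈ Mp M
    rw [map_add]; exact (Mp M).add_mem ha hb
  zero_mem' := by
    change tau z 0 ∈ Mp M
    rw [map_zero]; exact (Mp M).zero_mem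
  smul_mem' := fun r x hx => by
    change tau z (r • x) ∈ Mp M
    rw [tau_smulR]; exact (Mp M).smul_mem r hx

theorem mem_M1 {M : Submodule R (Fin k → F)} {y : Fin (k + 1) → F} :
    y ∈ M1 z M ↔ tau z y ∈ Mp M := Iff.rfl

theorem tau_mem_M1 (hq : qa z ≠ 0) {M : Submodule R (Fin k → F)} {y : Fin (k + 1) → F}
    (hy : y ∈ Mp M) : tau z y ∈ M1 z M := by
  rw [mem_M1, tau_tau z hq]; exact hy

theorem dual_M1 (hq : qa z ≠ 0) (M : Submodule R (Fin k → F)) (hM : dual M = M) :
    dual (M1 z M) = M1 z M := by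
  apply le_antisymm
  · intro y hy
    rw [mem_M1, ← dual_Mp M hM]
    intro w hw
    rw [tau_dot' z hq]
    exact hy _ (tau_mem_M1 z hq hw)
  · intro y hy w hw
    rw [← tau_dot z hq]
    rw [mem_M1, ← dual_Mp M hM] at hy
    exact hy _ hw

/-- the map `ρ` -/
noncomputable def rho : (Fin (k + 1) → F) →ₗ[F] (Fin k → F) where
  toFun y := Fin.tail y + (y 0 / 2) • z
  map_add' x y := by
    ext i; simp [Fin.tail]; ring
  map_smul' c y := by
    ext i; simp [Fin.tail]; ring

theorem rho_apply (y : Fin (k + 1) → F) : rho z y = Fin.tail y + (y 0 / 2) • z := rfl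

theorem rho_smulR (r : R) (y : Fin (k + 1) → F) : rho z (r • y) = r • rho z y := by
  rw [← algebraMap_smul F r y, map_smul, algebraMap_smul]

theorem rho_av (h2 : (2 : F) ≠ 0) : rho z (av z) = 0 := by
  rw [rho_apply, av_zero, av_tail, neg_div, div_self h2]; simp

theorem rho_tau (h2 : (2 : F) ≠ 0) (y : Fin (k + 1) → F) : rho z (tau z y) = rho z y := by
  rw [tau_apply, map_sub, map_smul, rho_av z h2, smul_zero, sub_zero]

theorem half_mem (h2 : IsUnit (2 : R)) {x : F} (hx : x ∈ (⊥ : Subalgebra R F)) :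
    x / 2 ∈ (⊥ : Subalgebra R F) := by
  obtain ⟨c, hc⟩ := h2.exists_right_inv
  have h2F : (2 : F) ≠ 0 := by
    intro h
    have := congrArg (algebraMap R F) hc
    rw [map_mul, map_ofNat, h, zero_mul, map_one] at this
    exact zero_ne_one this
  have hc' : (2 : F) * algebraMap R F c = 1 := by
    have := congrArg (algebraMap R F) hc
    rwa [map_mul, map_ofNat, map_one] at this
  have : x / 2 = c • x := by
    rw [Algebra.smul_def]
    field_simp
    linear_combination (-x) * hc'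
  rw [this]
  exact Subalgebra.smul_mem _ hx c

theorem two_ne (h2 : IsUnit (2 : R)) : (2 : F) ≠ 0 := by
  have := h2.map (algebraMap R F)
  rw [map_ofNat] at this
  exact this.ne_zero

/-- `ρ` maps the dual of `P₁` into the dual of `P` -/
theorem rho_dual (h2 : IsUnit (2 : R)) (M : Submodule R (Fin k → F))
    (hz : z ∈ dual (M ⊓ lat R F k)) {y : Fin (k + 1) → F}
    (hy : y ∈ dual (M1 z M ⊓ lat R F (k + 1))) : rho z y ∈ dual (M ⊓ lat R F k) := by
  intro x hx
  have h2F : (2 : F) ≠ 0 := two_ne h2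
  have hzx : (z ⬝ᵥ x) / 2 ∈ (⊥ : Subalgebra R F) := half_mem h2 (hz x hx)
  have hmem : (Fin.cons ((z ⬝ᵥ x) / 2) x : Fin (k + 1) → F) ∈ M1 z M ⊓ lat R F (k + 1) := by
    refine ⟨?_, cons_mem_lat.2 ⟨hx.2, hzx⟩⟩
    rw [SetLike.mem_coe, mem_M1]
    have h0 : av z ⬝ᵥ (Fin.cons ((z ⬝ᵥ x) / 2) x : Fin (k + 1) → F) = 0 := by
      rw [dot_succ, av_zero, av_tail, Fin.cons_zero, Fin.tail_cons]
      field_simp; ring
    rw [tau_apply, h0, mul_zero, zero_div, zero_smul, sub_zero]
    exact cons_mem_Mp.2 ⟨hx.1, hzx⟩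
  have := hy _ hmem
  rw [dot_succ, Fin.cons_zero, Fin.tail_cons] at this
  rw [rho_apply, add_dotProduct, smul_dotProduct, smul_eq_mul]
  convert this using 1
  ring

/-- elements of `ker ρ` -/
theorem ker_rho (h2 : (2 : F) ≠ 0) {y : Fin (k + 1) → F} (hy : rho z y = 0) :
    y = (-(y 0 / 2)) • av z := by
  rw [rho_apply] at hy
  have ht : Fin.tail y = -((y 0 / 2) • z) := by rwa [add_eq_zero_iff_eq_neg] at hy
  ext i
  refine Fin.cases ?_ (fun j => ?_) i
  · simp only [Pi.smul_apply, av_zero, smul_eq_mul]; field_simp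
  · have := congrFun ht j
    simp only [Fin.tail, Pi.neg_apply, Pi.smul_apply, smul_eq_mul] at this
    simp only [Pi.smul_apply, smul_eq_mul, neg_mul]
    rw [this]; rfl

/-- the key computation -/
theorem av_mem (h2 : IsUnit (2 : R)) (hH : Hart R F) (hq : qa z ≠ 0)
    (M : Submodule R (Fin k → F)) (hM : dual M = M)
    (hz : z ∈ dual (M ⊓ lat R F k)) (m : Ideal R) (hm : m.IsMaximal)
    (hmz : ∀ j ∈ m, j • z ∈ M ⊔ lat R F k) (t : F)
    (ht : t • av z ∈ dual (M1 z M ⊓ lat R F (k + 1))) :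
    t • av z ∈ M1 z M ⊔ lat R F (k + 1) := by
  have h2F : (2 : F) ≠ 0 := two_ne h2
  -- Hartogs
  have key : t * qa z ∈ (⊥ : Subalgebra R F) := by
    apply hH m hm
    intro j hj
    obtain ⟨μ, hμ, l', hl', hjz⟩ := Submodule.mem_sup.1 (hmz j hj)
    -- `j z = μ - l` with `l = - l'`
    set l : Fin k → F := - l' with hl
    have hlL : l ∈ lat R F k := (lat R F k).neg_mem hl'
    have hleq : l = μ - j • z := by rw [← hjz, hl]; abel
    have hβ : (μ + l) ⬝ᵥ z ∈ (⊥ : Subalgebra R F) := by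
      apply hH m hm
      intro i hi
      obtain ⟨μi, hμi, li', hli', hiz⟩ := Submodule.mem_sup.1 (hmz i hi)
      set li : Fin k → F := - li' with hli
      have hliL : li ∈ lat R F k := (lat R F k).neg_mem hli'
      have hlieq : li = μi - i • z := by rw [← hiz, hli]; abel
      have hp : i • μ - j • μi ∈ M ⊓ lat R F k := by
        refine ⟨M.sub_mem (M.smul_mem _ hμ) (M.smul_mem _ hμi), ?_⟩
        have : i • μ - j • μi = i • l - j • li := by
          rw [hleq, hlieq, smul_sub, smul_sub, smul_smul, smul_smul, mul_comm j i]; abel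
        rw [this]
        exact (lat R F k).sub_mem ((lat R F k).smul_mem _ hlL) ((lat R F k).smul_mem _ hliL)
      have h1 : z ⬝ᵥ (i • μ - j • μi) ∈ (⊥ : Subalgebra R F) := hz _ hp
      have h3 : μ ⬝ᵥ μi ∈ (⊥ : Subalgebra R F) := by
        have := hμ; rw [← hM] at this; exact this _ hμi
      have h4 : l ⬝ᵥ li ∈ (⊥ : Subalgebra R F) := dot_mem hlL hliL
      have : i • ((μ + l) ⬝ᵥ z) = μ ⬝ᵥ μi - l ⬝ᵥ li + z ⬝ᵥ (i • μ - j • μi) := by
        rw [hleq, hlieq]
        simp only [← algebraMap_smul F i, ← algebraMap_smul F j, sub_dotProduct, add_dotProduct,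
          dotProduct_sub, smul_dotProduct, dotProduct_smul, smul_eq_mul]
        rw [dotProduct_comm z μ, dotProduct_comm z μi]
        ring
      rw [this]
      exact add_mem (sub_mem h3 h4) h1
    set β : F := (μ + l) ⬝ᵥ z with hβdef
    have hβ4 : β / 2 / 2 ∈ (⊥ : Subalgebra R F) := half_mem h2 (half_mem h2 hβ)
    have hjint : algebraMap R F j ∈ (⊥ : Subalgebra R F) := Subalgebra.algebraMap_mem _ j
    set X : Fin (k + 1) → F := Fin.cons (algebraMap R F j - β / 2 / 2) (-μ) with hX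
    have hXM : X ∈ Mp M := cons_mem_Mp.2 ⟨M.neg_mem hμ, sub_mem hjint hβ4⟩
    have hβ' : β = 2 * (z ⬝ᵥ μ) - algebraMap R F j * (z ⬝ᵥ z) := by
      rw [hβdef, hleq, add_dotProduct, sub_dotProduct, ← algebraMap_smul F j, smul_dotProduct,
        smul_eq_mul, dotProduct_comm μ z]
      ring
    have haX : av z ⬝ᵥ X = -(algebraMap R F j * qa z / 2) := by
      rw [dot_succ, hX, av_zero, av_tail, Fin.cons_zero, Fin.tail_cons, dotProduct_neg, hβ', qa]
      field_simp
      ring
    have hτX : tau z X = Fin.cons (-algebraMap R F j - β / 2 / 2) (-l) := by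
      rw [tau_apply, haX]
      have : 2 * -(algebraMap R F j * qa z / 2) / qa z = - algebraMap R F j := by
        field_simp
      rw [this, hleq]
      ext i
      refine Fin.cases ?_ (fun i' => ?_) i
      · simp only [hX, Pi.sub_apply, Pi.smul_apply, Fin.cons_zero, av_zero, smul_eq_mul]; ring
      · have hjz' : (j • z) i' = algebraMap R F j * z i' := by
          rw [Pi.smul_apply, Algebra.smul_def]
        have hav : av z i'.succ = z i' := rfl
        simp only [hX, Pi.sub_apply, Pi.smul_apply, Fin.cons_succ, smul_eq_mul, Pi.neg_apply]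
        rw [hav, Algebra.smul_def]
        ring
    have hY : tau z X ∈ M1 z M ⊓ lat R F (k + 1) := by
      refine ⟨tau_mem_M1 z hq hXM, ?_⟩
      rw [hτX]
      exact cons_mem_lat.2 ⟨(lat R F k).neg_mem hlL, sub_mem (neg_mem hjint) hβ4⟩
    have := ht _ hY
    rw [smul_dotProduct, av_dot_tau z hq, haX, neg_neg, smul_eq_mul] at this
    have h5 : j • (t * qa z) = 2 * (t * (algebraMap R F j * qa z / 2)) := by
      rw [Algebra.smul_def]; field_simp
    rw [h5]
    have h22 : (2 : F) ∈ (⊥ : Subalgebra R F) := by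
      have := Subalgebra.algebraMap_mem (⊥ : Subalgebra R F) (2 : R)
      rwa [map_ofNat] at this
    exact mul_mem h22 this
  -- conclusion
  obtain ⟨r, hr⟩ := Algebra.mem_bot.1 (half_mem h2 (half_mem h2 (half_mem h2 key)))
  have he : (Fin.cons 2 0 : Fin (k + 1) → F) ∈ Mp M := by
    refine cons_mem_Mp.2 ⟨M.zero_mem, ?_⟩
    have := Subalgebra.algebraMap_mem (⊥ : Subalgebra R F) (2 : R)
    rwa [map_ofNat] at this
  have heL : (Fin.cons 2 0 : Fin (k + 1) → F) ∈ lat R F (k + 1) := by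
    refine cons_mem_lat.2 ⟨(lat R F k).zero_mem, ?_⟩
    have := Subalgebra.algebraMap_mem (⊥ : Subalgebra R F) (2 : R)
    rwa [map_ofNat] at this
  have hτe : tau z (Fin.cons 2 0 : Fin (k + 1) → F) - Fin.cons 2 0 = (8 / qa z) • av z := by
    rw [tau_apply, dot_succ, av_zero, av_tail, Fin.cons_zero, Fin.tail_cons, dotProduct_zero,
      add_zero, sub_sub_cancel_left, ← neg_smul]
    congr 1
    field_simp
    norm_num
  have : t • av z = r • (tau z (Fin.cons 2 0 : Fin (k + 1) → F) - Fin.cons 2 0) := by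
    rw [hτe, ← algebraMap_smul F r, hr, smul_smul]
    congr 1
    field_simp
    norm_num
  rw [this]
  refine Submodule.smul_mem _ _ (Submodule.sub_mem _ ?_ ?_)
  · exact Submodule.mem_sup_left (tau_mem_M1 z hq he)
  · exact Submodule.mem_sup_right heL

end Surg

end Pool.Agent.Y211.PY
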